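import Mathlib
import Pool.Agent.W187.WQ.Stmts5

/-!
# Small numerical facts for length `log 5` (project WQ, task WQ-N3_5)
-/

set_option autoImplicit false
set_option linter.all false

open Pool.Agent.W187.WP Pool.Agent.W187.WQ

namespace Pool.Agent.W398.WQ

theorem log89 : |Real.log (8 / 9) +
    (∑ i ∈ Finset.range 26, (1 / 9 : ℝ) ^ (i + 1) / (i + 1))| ≤ 1 / 10 ^ 25 := by
  have h := Real.abs_log_sub_add_sum_range_le (x := 1 / 9)
    (by rw [abs_of_pos] <;> norm_num) 26
  have e : (1 : ℝ) - 1 / 9 = 8 / 9 := by norm_num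
  rw [e] at h
  rw [add_comm]
  refine h.trans ?_
  rw [abs_of_pos (by norm_num : (0 : ℝ) < 1 / 9)]
  norm_num

theorem log34 : |Real.log (3 / 4) +
    (∑ i ∈ Finset.range 42, (1 / 4 : ℝ) ^ (i + 1) / (i + 1))| ≤ 1 / 10 ^ 25 := by
  have h := Real.abs_log_sub_add_sum_range_le (x := 1 / 4)
    (by rw [abs_of_pos] <;> norm_num) 42
  have e : (1 : ℝ) - 1 / 4 = 3 / 4 := by norm_num
  rw [e] at h
  rw [add_comm]
  refine h.trans ?_
  rw [abs_of_pos (by norm_num : (0 : ℝ) < 1 / 4)]
  norm_num

theorem s89 : (∑ i ∈ Finset.range 26, (1 / 9 : ℝ) ^ (i + 1) / (i + 1)) ≤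
    0.1177830356563834545387941088 ∧ 0.1177830356563834545387941087 ≤
    (∑ i ∈ Finset.range 26, (1 / 9 : ℝ) ^ (i + 1) / (i + 1)) := by
  simp only [Finset.sum_range_succ, Finset.sum_range_zero]
  norm_num

theorem s34 : (∑ i ∈ Finset.range 42, (1 / 4 : ℝ) ^ (i + 1) / (i + 1)) ≤
    0.2876820724517809274392190056 ∧ 0.2876820724517809274392190055 ≤
    (∑ i ∈ Finset.range 42, (1 / 4 : ℝ) ^ (i + 1) / (i + 1)) := by
  simp only [Finset.sum_range_succ, Finset.sum_range_zero]
  norm_num

theorem log2_eq : Real.log 2 = -Real.log (8 / 9) - 2 * Real.log (3 / 4) := by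
  have h : Real.log (8 / 9) = 3 * Real.log 2 - 2 * Real.log 3 := by
    rw [Real.log_div (by norm_num) (by norm_num), show (8 : ℝ) = 2 ^ 3 by norm_num,
      show (9 : ℝ) = 3 ^ 2 by norm_num, Real.log_pow, Real.log_pow]
    push_cast
    ring
  have h' : Real.log (3 / 4) = Real.log 3 - 2 * Real.log 2 := by
    rw [Real.log_div (by norm_num) (by norm_num), show (4 : ℝ) = 2 ^ 2 by norm_num,
      Real.log_pow]
    push_cast
    ring
  rw [h, h']
  ring

theorem log3_eq : Real.log 3 = -2 * Real.log (8 / 9) - 3 * Real.log (3 / 4) := by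
  have h : Real.log (8 / 9) = 3 * Real.log 2 - 2 * Real.log 3 := by
    rw [Real.log_div (by norm_num) (by norm_num), show (8 : ℝ) = 2 ^ 3 by norm_num,
      show (9 : ℝ) = 3 ^ 2 by norm_num, Real.log_pow, Real.log_pow]
    push_cast
    ring
  have h' : Real.log (3 / 4) = Real.log 3 - 2 * Real.log 2 := by
    rw [Real.log_div (by norm_num) (by norm_num), show (4 : ℝ) = 2 ^ 2 by norm_num,
      Real.log_pow]
    push_cast
    ring
  rw [h, h']
  ring

theorem b89 : -0.1177830356563834545387942088 ≤ Real.log (8 / 9) ∧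
    Real.log (8 / 9) ≤ -0.1177830356563834545387940087 := by
  have h1 := log89
  have h3 := s89
  generalize (∑ i ∈ Finset.range 26, (1 / 9 : ℝ) ^ (i + 1) / (i + 1)) = S at h1 h3
  obtain ⟨h1, h2⟩ := abs_le.1 h1
  obtain ⟨h3, h4⟩ := h3
  generalize Real.log (8 / 9) = L at h1 h2 ⊢
  constructor
  · norm_num at h1 h2 h3 h4 ⊢
    linarith
  · norm_num at h1 h2 h3 h4 ⊢
    linarith

theorem b34 : -0.2876820724517809274392191056 ≤ Real.log (3 / 4) ∧
    Real.log (3 / 4) ≤ -0.2876820724517809274392189055 := by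
  have h1 := log34
  have h3 := s34
  generalize (∑ i ∈ Finset.range 42, (1 / 4 : ℝ) ^ (i + 1) / (i + 1)) = S at h1 h3
  obtain ⟨h1, h2⟩ := abs_le.1 h1
  obtain ⟨h3, h4⟩ := h3
  generalize Real.log (3 / 4) = L at h1 h2 ⊢
  constructor
  · norm_num at h1 h2 h3 h4 ⊢
    linarith
  · norm_num at h1 h2 h3 h4 ⊢
    linarith

theorem log2_b : 0.6931471805599453094172318197 ≤ Real.log 2 ∧
    Real.log 2 ≤ 0.6931471805599453094172324200 := by
  obtain ⟨h1, h2⟩ := b89
  obtain ⟨h3, h4⟩ := b34
  rw [log2_eq]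
  generalize Real.log (8 / 9) = L at h1 h2 ⊢
  generalize Real.log (3 / 4) = L' at h3 h4 ⊢
  constructor
  · norm_num at h1 h2 h3 h4 ⊢
    linarith
  · norm_num at h1 h2 h3 h4 ⊢
    linarith

theorem log3_b : 1.0986122886681096913952447339 ≤ Real.log 3 ∧
    Real.log 3 ≤ 1.0986122886681096913952457344 := by
  obtain ⟨h1, h2⟩ := b89
  obtain ⟨h3, h4⟩ := b34
  rw [log3_eq]
  generalize Real.log (8 / 9) = L at h1 h2 ⊢
  generalize Real.log (3 / 4) = L' at h3 h4 ⊢
  constructor
  · norm_num at h1 h2 h3 h4 ⊢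
    linarith
  · norm_num at h1 h2 h3 h4 ⊢
    linarith

theorem sqrt2_b : 1.414213562373095048801688 ≤ Real.sqrt 2 ∧
    Real.sqrt 2 ≤ 1.414213562373095048801689 := by
  constructor
  · apply Real.le_sqrt_of_sq_le
    norm_num
  · rw [Real.sqrt_le_left (by norm_num)]
    norm_num

theorem sqrt3_b : 1.732050807568877293527446 ≤ Real.sqrt 3 ∧
    Real.sqrt 3 ≤ 1.732050807568877293527447 := by
  constructor
  · apply Real.le_sqrt_of_sq_le
    norm_num
  · rw [Real.sqrt_le_left (by norm_num)]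
    norm_num

theorem p0 : |Real.log 2 / Real.sqrt 2 -
    245064535867136797928475430909/500000000000000000000000000000| ≤ 1 / 10 ^ 22 := by
  have h2 : Real.sqrt 2 * Real.sqrt 2 = 2 := Real.mul_self_sqrt (by norm_num)
  have hs : 0 < Real.sqrt 2 := by positivity
  have h1 : Real.log 2 / Real.sqrt 2 = Real.log 2 * Real.sqrt 2 / 2 := by
    rw [div_eq_div_iff hs.ne' (by norm_num)]
    rw [mul_assoc, h2]
  rw [h1]
  obtain ⟨a1, a2⟩ := log2_b
  obtain ⟨b1, b2⟩ := sqrt2_b
  have c1 : 0.6931471805599453094172318197 * 1.414213562373095048801688 ≤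
      Real.log 2 * Real.sqrt 2 := mul_le_mul a1 b1 (by norm_num) (by linarith)
  have c2 : Real.log 2 * Real.sqrt 2 ≤
      0.6931471805599453094172324200 * 1.414213562373095048801689 :=
    mul_le_mul a2 b2 hs.le (by norm_num)
  generalize Real.log 2 * Real.sqrt 2 = y at c1 c2 ⊢
  rw [abs_le]
  constructor
  · norm_num at c1 c2 ⊢
    linarith
  · norm_num at c1 c2 ⊢
    linarith

theorem p1 : |Real.log 3 / Real.sqrt 3 -
    126856820119512795437277554509/200000000000000000000000000000| ≤ 1 / 10 ^ 22 := by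
  have h2 : Real.sqrt 3 * Real.sqrt 3 = 3 := Real.mul_self_sqrt (by norm_num)
  have hs : 0 < Real.sqrt 3 := by positivity
  have h1 : Real.log 3 / Real.sqrt 3 = Real.log 3 * Real.sqrt 3 / 3 := by
    rw [div_eq_div_iff hs.ne' (by norm_num)]
    rw [mul_assoc, h2]
  rw [h1]
  obtain ⟨a1, a2⟩ := log3_b
  obtain ⟨b1, b2⟩ := sqrt3_b
  have c1 : 1.0986122886681096913952447339 * 1.732050807568877293527446 ≤
      Real.log 3 * Real.sqrt 3 := mul_le_mul a1 b1 (by norm_num) (by linarith)
  have c2 : Real.log 3 * Real.sqrt 3 ≤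
      1.0986122886681096913952457344 * 1.732050807568877293527447 :=
    mul_le_mul a2 b2 hs.le (by norm_num)
  generalize Real.log 3 * Real.sqrt 3 = y at c1 c2 ⊢
  rw [abs_le]
  constructor
  · norm_num at c1 c2 ⊢
    linarith
  · norm_num at c1 c2 ⊢
    linarith

theorem p2 : |Real.log 2 / 2 -
    346573590279972654708616060729/1000000000000000000000000000000| ≤ 1 / 10 ^ 22 := by
  obtain ⟨a1, a2⟩ := log2_b
  generalize Real.log 2 = y at a1 a2 ⊢
  rw [abs_le]
  constructor
  · norm_num at a1 a2 ⊢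
    linarith
  · norm_num at a1 a2 ⊢
    linarith

theorem part1 : ∀ r < 3, |ArithmeticFunction.vonMangoldt (ns5 r) / Real.sqrt (ns5 r) -
    p5.la r| ≤ 1 / 10 ^ 22 := by
  intro r hr
  interval_cases r
  · have e1 : ns5 0 = 2 := rfl
    have e2 : p5.la 0 = 245064535867136797928475430909/500000000000000000000000000000 := by
      simp only [Prm.la, p5, List.getD_cons_zero]
      norm_num
    rw [e1, e2, ArithmeticFunction.vonMangoldt_apply_prime Nat.prime_two]
    exact_mod_cast p0
  · have e1 : ns5 1 = 3 := rfl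
    have e2 : p5.la 1 = 126856820119512795437277554509/200000000000000000000000000000 := by
      simp only [Prm.la, p5, List.getD_cons_succ, List.getD_cons_zero]
      norm_num
    rw [e1, e2, ArithmeticFunction.vonMangoldt_apply_prime Nat.prime_three]
    exact_mod_cast p1
  · have e1 : ns5 2 = 4 := rfl
    have e2 : p5.la 2 = 346573590279972654708616060729/1000000000000000000000000000000 := by
      simp only [Prm.la, p5, List.getD_cons_succ, List.getD_cons_zero]
      norm_num
    have e3 : ArithmeticFunction.vonMangoldt 4 = Real.log 2 := by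
      rw [show (4 : ℕ) = 2 ^ 2 by norm_num, ArithmeticFunction.vonMangoldt_apply_pow two_ne_zero,
        ArithmeticFunction.vonMangoldt_apply_prime Nat.prime_two]
      norm_num
    have e4 : Real.sqrt ((4 : ℕ) : ℝ) = 2 := by
      rw [show ((4 : ℕ) : ℝ) = 2 ^ 2 by norm_num]
      exact Real.sqrt_sq (by norm_num)
    rw [e1, e2, e3, e4]
    exact p2

theorem expb (t : ℝ) (ht : |t| ≤ 10059 / 25000) :
    |Real.exp t - ∑ m ∈ Finset.range 18, t ^ m / (m.factorial : ℝ)| ≤ 2 / 10 ^ 23 := by
  have h := Real.exp_bound (x := t) (ht.trans (by norm_num)) (n := 18) (by norm_num)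
  refine h.trans ?_
  have h1 : |t| ^ 18 ≤ (10059 / 25000) ^ 18 := pow_le_pow_left₀ (abs_nonneg _) ht 18
  calc |t| ^ 18 * (((18 : ℕ).succ : ℝ) / (((18 : ℕ).factorial : ℝ) * ((18 : ℕ) : ℝ)))
      ≤ (10059 / 25000) ^ 18 *
        (((18 : ℕ).succ : ℝ) / (((18 : ℕ).factorial : ℝ) * ((18 : ℕ) : ℝ))) := by
        apply mul_le_mul_of_nonneg_right h1
        positivity
    _ ≤ 2 / 10 ^ 23 := by
        norm_num [Nat.factorial]

theorem tb {x : ℝ} (hx : |x| ≤ 1) : |10059 / 12500 * x / 2| ≤ 10059 / 25000 := by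
  have : 10059 / 12500 * x / 2 = (10059 / 25000) * x := by ring
  rw [this, abs_mul, abs_of_pos (by norm_num : (0 : ℝ) < 10059 / 25000)]
  linarith

theorem xp {x : ℝ} (hx : |x| ≤ 1) (m : ℕ) : -1 ≤ x ^ m ∧ x ^ m ≤ 1 := by
  rw [← abs_le, abs_pow]
  exact pow_le_one₀ (abs_nonneg _) hx

theorem part2 (x : ℝ) (hx : |x| ≤ 1) :
    |Real.cosh (10059 / 12500 * x / 2) - ev p5.cp x| ≤ 1 / 10 ^ 22 := by
  set t := 10059 / 12500 * x / 2 with ht
  have ht1 : |t| ≤ 10059 / 25000 := tb hx
  have e1 := abs_le.1 (expb t ht1)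
  have e2 := abs_le.1 (expb (-t) (by rwa [abs_neg]))
  simp only [Finset.sum_range_succ, Finset.sum_range_zero, Nat.factorial] at e1 e2
  have hev : ev p5.cp x = 1 + 101183481/1250000000 * x ^ 2 +
      3412698942425787/3125000000000000000 * x ^ 4 +
      5893269480100859098872269/1000000000000000000000000000000 * x ^ 6 +
      3407437259815229455511/200000000000000000000000000000 * x ^ 8 +
      30646787843307229611/1000000000000000000000000000000 * x ^ 10 +
      37587256672173431/1000000000000000000000000000000 * x ^ 12 +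
      33434808539173/1000000000000000000000000000000 * x ^ 14 +
      5638417191/250000000000000000000000000000 * x ^ 16 := by
    simp only [p5, ev]
    push_cast
    ring
  have x2 := xp hx 2
  have x4 := xp hx 4
  have x6 := xp hx 6
  have x8 := xp hx 8
  have x10 := xp hx 10
  have x12 := xp hx 12
  have x14 := xp hx 14
  have x16 := xp hx 16
  rw [hev, Real.cosh_eq, abs_le]
  generalize Real.exp t = E at e1 ⊢
  generalize Real.exp (-t) = E' at e2 ⊢
  rw [ht] at e1 e2
  clear_value t
  ring_nf at e1 e2 x2 x4 x6 x8 x10 x12 x14 x16 ⊢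
  constructor <;> linarith

theorem part3 (x : ℝ) (hx : |x| ≤ 1) :
    |Real.sinh (10059 / 12500 * x / 2) - ev p5.sp x| ≤ 1 / 10 ^ 22 := by
  set t := 10059 / 12500 * x / 2 with ht
  have ht1 : |t| ≤ 10059 / 25000 := tb hx
  have e1 := abs_le.1 (expb t ht1)
  have e2 := abs_le.1 (expb (-t) (by rwa [abs_neg]))
  simp only [Finset.sum_range_succ, Finset.sum_range_zero, Nat.factorial] at e1 e2
  have hev : ev p5.sp x = 10059/25000 * x ^ 1 + 339268211793/31250000000000 * x ^ 3 +
      34328338661860991433/390625000000000000000000 * x ^ 5 +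
      169372564858098690501589/500000000000000000000000000000 * x ^ 7 +
      761675808810697624289/1000000000000000000000000000000 * x ^ 9 +
      560501888937868041/500000000000000000000000000000 * x ^ 11 +
      1163354507278131/1000000000000000000000000000000 * x ^ 13 +
      179371060851/200000000000000000000000000000 * x ^ 15 +
      533805539/1000000000000000000000000000000 * x ^ 17 := by
    simp only [p5, ev]
    push_cast
    ring
  have x1 := xp hx 1
  have x3 := xp hx 3
  have x5 := xp hx 5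
  have x7 := xp hx 7
  have x9 := xp hx 9
  have x11 := xp hx 11
  have x13 := xp hx 13
  have x15 := xp hx 15
  have x17 := xp hx 17
  rw [hev, Real.sinh_eq, abs_le]
  generalize Real.exp t = E at e1 ⊢
  generalize Real.exp (-t) = E' at e2 ⊢
  rw [ht] at e1 e2
  clear_value t
  ring_nf at e1 e2 x1 x3 x5 x7 x9 x11 x13 x15 x17 ⊢
  constructor <;> linarith

theorem n3_5 : S_N3_5 := ⟨part1, part2, part3⟩

end Pool.Agent.W398.WQ
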